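import Pool.Agent.Helper227.Defs

set_option autoImplicit false

namespace Pool.Agent.H624Z.OW

open Pool.Agent.Helper227 MeasureTheory

/-- The total function `f` is computable relative to the set `A`. -/
def CompIn (A : ℕ → Bool) (f : ℕ → ℕ) : Prop :=
  TuringReducible (fun n => Part.some (f n)) (chi A)

/-- The sequence of rationals `β` is computable relative to `A`. -/
def CompSeqIn (A : ℕ → Bool) (β : ℕ → ℚ) : Prop :=
  ∃ p q r : ℕ → ℕ, CompIn A p ∧ CompIn A q ∧ CompIn A r ∧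
    ∀ s, β s = ((p s : ℚ) - (q s : ℚ)) / ((r s : ℚ) + 1)

/-- `G 0 ⊇ G 1 ⊇ ...` is a left-c.e. test relative to `A`: the open sets `G m` are uniformly
c.e. relative to `A` and descending, and there is an `A`-computable nondecreasing sequence of
rationals `β` with supremum `b` such that the measure of `G m` is `O(b - β m)`. -/
def IsLCTest (A : ℕ → Bool) (G : ℕ → Set (ℕ → Bool)) : Prop :=
  (∃ W : Set ℕ, CEIn A W ∧
    ∀ n, G n = ⋃ σ ∈ {σ : List Bool | Nat.pair n (Encodable.encode σ) ∈ W}, cyl σ) ∧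
  (∀ n, G (n + 1) ⊆ G n) ∧
  ∃ (β : ℕ → ℚ) (b : ℝ), CompSeqIn A β ∧ Monotone β ∧
    IsLUB (Set.range fun s => (β s : ℝ)) b ∧
    ∃ C : ℝ, ∀ m, (lam (G m)).toReal ≤ C * (b - (β m : ℝ))

/-- `Z` is Oberwolfach random relative to `A`. -/
def OWRandomIn (A Z : ℕ → Bool) : Prop :=
  ∀ G : ℕ → Set (ℕ → Bool), IsLCTest A G → Z ∉ ⋂ m, G m

/-- `A` is low for Oberwolfach randomness (unrelativised = relative to the empty set). -/
def LowOW (A : ℕ → Bool) : Prop :=
  ∀ Z : ℕ → Bool, OWRandomIn (fun _ => false) Z → OWRandomIn A Z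

end Pool.Agent.H624Z.OW
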